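import Mathlib
import Pool.Agent.Lib_helper89.PPM.Main

/-!
Problem MP_e7408b_lc, Q1: unbounded treewidth does not force C-Pattern PPM to be NP-hard.

There is a permutation class of unbounded treewidth such that every language that reduces in
polynomial time to the corresponding pattern matching problem is in P. Hence the assertion that
C-Pattern PPM is NP-hard for every class of unbounded treewidth is equivalent to P = NP.
-/

namespace Pool.Agent.Results.MP_e7408b_lc.EasyUnboundedClass

open Pool.Agent.PPM

theorem result :
    ((∀ C : Set Permutation, IsClass C → UnboundedTreewidth C → PatternPPMHard C) ↔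
      N68a2faeb.P = N68a2faeb.NP) ∧
    ∃ C : Set Permutation, IsClass C ∧ UnboundedTreewidth C ∧
      ∀ L : List Bool → Bool, ReducesToPatternPPM L C → L ∈ N68a2faeb.P :=
  main_theorem

end Pool.Agent.Results.MP_e7408b_lc.EasyUnboundedClass
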