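import Mathlib
import Pool.Agent.PPMDec.Final

/-!
Problem MP_e7408b_lc, Q1, for decidable classes and in both readings of C-Pattern PPM.

The assertion that C-Pattern PPM is NP-hard for every permutation class of unbounded treewidth whose
membership problem is primitive recursive is equivalent to P = NP, both when the patterns are
promised to be in the class and when C-Pattern PPM is a language in which pairs with a pattern
outside the class are no-instances. So, unless P = NP, there is a decidable class of unbounded
treewidth for which C-Pattern PPM is not NP-hard.
-/

namespace Pool.Agent.Results.MP_e7408b_lc.PrimrecEasyClass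

open Pool.Agent.PPM

theorem result :
    ((∀ C : Set Permutation, IsClass C → PrimrecClass C → UnboundedTreewidth C →
      PatternPPMHard C) ↔ N68a2faeb.P = N68a2faeb.NP) ∧
    ((∀ C : Set Permutation, IsClass C → PrimrecClass C → UnboundedTreewidth C →
      PatternPPMLanguageHard C) ↔ N68a2faeb.P = N68a2faeb.NP) :=
  Pool.Agent.PPMDec.main_theorem

end Pool.Agent.Results.MP_e7408b_lc.PrimrecEasyClass
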