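import Mathlib
import Pool.Agent.Lib_helper48.PPMX.Main

/-!
Problem MP_e7408b_lc, Q1, for explicit classes.

For a nondecreasing unbounded function `g` let `SlowClass g` be the set of the permutations `σ` such
that `tw(G_π) ≤ g(|π|)` for each pattern `π` of `σ`. It is a permutation class of unbounded
treewidth. If `g` is computable in polynomial time then one Turing machine solves the corresponding
pattern matching problem in time `(n + 2) ^ (c * g(|π|))`. So its NP-hardness would put every
language in NP into time `(n + 2) ^ (c * g((n + 2) ^ c))`, however slowly `g` grows.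
-/

namespace Pool.Agent.Results.MP_e7408b_lc.SlowClasses

open Pool.Agent.PPM Pool.Agent.PPMX Pool.Agent.PT

open Classical in
theorem result (g : ℕ → ℕ) (hg : Monotone g) (hu : ∀ k, ∃ n, k ≤ g n) (h0 : 33 ≤ g 0) :
    IsClass (SlowClass g) ∧ UnboundedTreewidth (SlowClass g) ∧
    (N68a2faeb.IsPolyTime (fun u : U => U.mk (g u.val)) →
      (∃ c : ℕ, ComputableInTimeOn {x : Permutation × Permutation | x.1 ∈ SlowClass g}
        (fun x => decide (Contains x.2 x.1)) (fun x => (x.1.1 + x.2.1 + 2) ^ (c * g x.1.1))) ∧
      (PatternPPMHard (SlowClass g) → ∀ L ∈ N68a2faeb.NP, ∃ c : ℕ,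
        ComputableInTimeOn Set.univ L
          (fun x => (x.length + 2) ^ (c * g ((x.length + 2) ^ c))))) :=
  slow_main hg hu h0

end Pool.Agent.Results.MP_e7408b_lc.SlowClasses
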